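import Pool.Agent.Helper9.UP.StC

/-!
# Project UP (MP_d466de_nt), module CB: sums over two families of divisors
-/

set_option autoImplicit false

noncomputable section

namespace Pool.Agent.Helper60.UP

open Finset Polynomial
open Pool.Agent.Helper9.UP

namespace CB

theorem gf_nonneg (f : ℤ[X]) (p : ℕ) : 0 ≤ gf f p := by
  unfold gf
  split_ifs
  · exact le_rfl
  · positivity

theorem rho_eq (f : ℤ[X]) {p : ℕ} (hp : 0 < p) (h : 2 * f.natDegree < p) :
    (rho f p : ℝ) = p * gf f p := by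
  unfold gf
  rw [if_neg (by omega)]
  have : (p : ℝ) ≠ 0 := by positivity
  field_simp

theorem fam_le (g : ℕ → ℝ) (hg : ∀ p, 0 ≤ g p) (S : Finset ℕ) (A : Finset (Finset ℕ))
    (hA : ∀ T ∈ A, T ⊆ S) (E : ℝ) (hE : ∑ p ∈ S, g p ≤ E) :
    ∑ T ∈ A, ∏ p ∈ T, g p ≤ Real.exp E := by
  calc ∑ T ∈ A, ∏ p ∈ T, g p ≤ ∑ T ∈ S.powerset, ∏ p ∈ T, g p :=
        sum_le_sum_of_subset_of_nonneg (fun T hT => mem_powerset.2 (hA T hT))
          (fun T _ _ => prod_nonneg fun p _ => hg p)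
    _ = ∏ p ∈ S, (1 + g p) := (Finset.prod_one_add S).symm
    _ ≤ ∏ p ∈ S, Real.exp (g p) := prod_le_prod (fun p _ => by linarith [hg p])
        (fun p _ => by linarith [Real.add_one_le_exp (g p)])
    _ = Real.exp (∑ p ∈ S, g p) := (Real.exp_sum S g).symm
    _ ≤ Real.exp E := Real.exp_le_exp.2 hE

theorem wt_facts {N : ℕ} {ω x B : ℝ} {j0 j : ℕ} {l : ℕ → ℝ} (hN : 1 ≤ (N : ℝ)) (hω : 0 < ω)
    (hw : Wt N ω j0 j x B l) {q : ℕ} (hq : l q ≠ 0) :
    Squarefree q ∧ (∀ p : ℕ, p.Prime → p ∣ q → (N : ℝ) ^ ((j0 : ℝ) * ω) ≤ (p : ℝ)) ∧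
      (q : ℝ) ≤ (N : ℝ) ^ x := by
  obtain ⟨⟨h1, h2⟩, h3⟩ := (hw q).2 hq
  refine ⟨h1, ?_, h3⟩
  intro p hp hpq
  have h4 := h2 p hp hpq
  unfold Pr at h4
  rw [mem_biUnion] at h4
  obtain ⟨i, hi, h5⟩ := h4
  unfold bx at h5
  rw [mem_filter] at h5
  refine le_trans ?_ h5.2.2
  apply Real.rpow_le_rpow_of_exponent_le hN
  have : (j0 : ℝ) ≤ (i : ℝ) := by exact_mod_cast (mem_Ico.1 hi).1
  exact mul_le_mul_of_nonneg_right this hω.le

theorem sqf_prod {T : Finset ℕ} (hT : ∀ p ∈ T, p.Prime) : Squarefree (∏ p ∈ T, p) := by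
  refine Finset.squarefree_prod_of_pairwise_isCoprime ?_ ?_
  · intro a ha b hb hab
    exact Nat.coprime_iff_isRelPrime.1 ((Nat.coprime_primes (hT a ha) (hT b hb)).2 hab)
  · intro p hp
    exact (hT p hp).prime.squarefree

theorem sum_l {N : ℕ} {ω x B : ℝ} {j0 j : ℕ} {l : ℕ → ℝ} (hN : 1 ≤ (N : ℝ)) (hω : 0 < ω)
    (hx2 : x ≤ 2) (hw : Wt N ω j0 j x B l) {q : ℕ} (hq : l q ≠ 0) :
    q ∈ range (⌊(N : ℝ) ^ (2 : ℕ)⌋₊ + 1) := by
  obtain ⟨_, _, h3⟩ := wt_facts hN hω hw hq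
  rw [mem_range, Nat.lt_succ_iff]
  apply Nat.le_floor
  refine le_trans h3 ?_
  rw [← Real.rpow_natCast]
  exact Real.rpow_le_rpow_of_exponent_le hN (by push_cast; exact hx2)

/-- the sum over the divisors as a sum over a fixed range -/
theorem div_sum {N : ℕ} {ω x B : ℝ} {j0 j : ℕ} {l : ℕ → ℝ} (hN : 1 ≤ (N : ℝ)) (hω : 0 < ω)
    (hx2 : x ≤ 2) (hw : Wt N ω j0 j x B l) {n : ℕ} (hn : n ≠ 0) :
    ∑ q ∈ n.divisors, l q =
      ∑ q ∈ range (⌊(N : ℝ) ^ (2 : ℕ)⌋₊ + 1), l q * (if q ∣ n then (1 : ℝ) else 0) := by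
  have e1 : ∑ q ∈ n.divisors, l q =
      ∑ q ∈ n.divisors ∩ range (⌊(N : ℝ) ^ (2 : ℕ)⌋₊ + 1), l q := by
    symm
    apply sum_subset inter_subset_left
    intro q hq1 hq2
    by_contra h0
    exact hq2 (mem_inter.2 ⟨hq1, sum_l hN hω hx2 hw h0⟩)
  rw [e1]
  have e2 : n.divisors ∩ range (⌊(N : ℝ) ^ (2 : ℕ)⌋₊ + 1) =
      (range (⌊(N : ℝ) ^ (2 : ℕ)⌋₊ + 1)).filter (fun q => q ∣ n) := by
    ext q
    rw [mem_inter, mem_filter, Nat.mem_divisors]
    constructor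
    · rintro ⟨⟨h1, _⟩, h2⟩
      exact ⟨h2, h1⟩
    · rintro ⟨h1, h2⟩
      exact ⟨⟨h2, hn⟩, h1⟩
  rw [e2, sum_filter]
  apply sum_congr rfl
  intro q _
  split_ifs <;> simp

theorem prod_ind {T : Finset ℕ} (hT : ∀ p ∈ T, p.Prime) (n : ℕ) :
    (∏ p ∈ T, (if p ∣ n then (1 : ℝ) else 0)) = if (∏ p ∈ T, p) ∣ n then (1 : ℝ) else 0 := by
  by_cases h : ∀ p ∈ T, p ∣ n
  · rw [if_pos (Finset.prod_primes_dvd n (fun a ha => (hT a ha).prime) h)]
    apply prod_eq_one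
    intro p hp
    rw [if_pos (h p hp)]
  · push Not at h
    obtain ⟨p, hp, hpn⟩ := h
    rw [if_neg (fun h' => hpn (dvd_trans (dvd_prod_of_mem _ hp) h'))]
    exact prod_eq_zero hp (if_neg hpn)

/-- facts for a set `T` of small primes and a `q` with large primes -/
theorem pair_facts {f : ℤ[X]} {N w : ℕ} {ω x B : ℝ} {j0 j : ℕ} {l : ℕ → ℝ} (hN : 1 ≤ (N : ℝ))
    (hω : 0 < ω) (hw : Wt N ω j0 j x B l) (h1 : (w : ℝ) < (N : ℝ) ^ ((j0 : ℝ) * ω))
    (h2 : 2 * (f.natDegree : ℝ) < (N : ℝ) ^ ((j0 : ℝ) * ω)) {T : Finset ℕ} (hT : T ⊆ Qf f w)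
    {q : ℕ} (hq : l q ≠ 0) :
    (∏ p ∈ T, p).Coprime q ∧ Squarefree ((∏ p ∈ T, p) * q) ∧
      (∀ p : ℕ, p.Prime → p ∣ (∏ p ∈ T, p) * q → 2 * f.natDegree < p) ∧
      ((∏ p ∈ T, p) * q).primeFactors = T ∪ q.primeFactors ∧ Disjoint T q.primeFactors := by
  obtain ⟨a1, a2, a3⟩ := wt_facts hN hω hw hq
  have hTp : ∀ p ∈ T, p.Prime := fun p hp => (mem_filter.1 (hT hp)).2
  have hTi : ∀ p ∈ T, 2 * f.natDegree < p ∧ p ≤ w := fun p hp =>
    mem_Ioc.1 (mem_filter.1 (hT hp)).1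
  have hdis : ∀ p ∈ T, ¬ p ∣ q := by
    intro p hp hpq
    have h3 := a2 p (hTp p hp) hpq
    have h4 : (p : ℝ) ≤ (w : ℝ) := by exact_mod_cast (hTi p hp).2
    linarith
  have hc : (∏ p ∈ T, p).Coprime q := by
    apply Nat.Coprime.prod_left
    intro p hp
    exact (Nat.Prime.coprime_iff_not_dvd (hTp p hp)).2 (hdis p hp)
  refine ⟨hc, (Nat.squarefree_mul hc).2 ⟨sqf_prod hTp, a1⟩, ?_, ?_, ?_⟩
  · intro p hp hd
    rcases (hp.dvd_mul).1 hd with h | h
    · obtain ⟨a, ha, hpa⟩ := (hp.prime.dvd_finsetProd_iff _).1 h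
      have : p = a := (Nat.prime_dvd_prime_iff_eq hp (hTp a ha)).1 hpa
      rw [this]
      exact (hTi a ha).1
    · have h3 := a2 p hp h
      have h4 : (2 : ℝ) * (f.natDegree : ℝ) < (p : ℝ) := by linarith
      exact_mod_cast h4
  · rw [hc.primeFactors_mul, Nat.primeFactors_prod hTp]
  · rw [Finset.disjoint_left]
    intro p hp hpq
    exact hdis p hp (Nat.dvd_of_mem_primeFactors hpq)

end CB

open CB in
theorem hCB (hN : StCN) (hP : StPO) : StCB := by
  intro Λ ω x B lam E f m0 N w Y j0 j F l hAdm hlc hm0 hNL hF hw1 hw2 hω hx0 hx2 hwY hNY hE hWt hB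
  have hN1 : 1 ≤ (N : ℝ) := by
    have := Real.exp_pos Λ
    linarith
  set D := range (⌊(N : ℝ) ^ (2 : ℕ)⌋₊ + 1) with hD
  set g := gf f with hg
  have hg0 : ∀ p, 0 ≤ g p := gf_nonneg f
  -- count
  let c : Finset ℕ → ℕ → ℝ := fun T q =>
    (((AA f m0 N).filter (fun m : ℕ => (((∏ p ∈ T, p) * q : ℕ) : ℤ) ∣ f.eval (m : ℤ))).card : ℝ)
  have hL : ∑ m ∈ AA f m0 N, tw F (val f m) * ∑ q ∈ (val f m).divisors, l q =
      ∑ T ∈ F, ∑ q ∈ D, (-1 : ℝ) ^ T.card * l q * c T q := by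
    have e1 : ∀ m ∈ AA f m0 N, tw F (val f m) * ∑ q ∈ (val f m).divisors, l q =
        ∑ T ∈ F, ∑ q ∈ D, (-1 : ℝ) ^ T.card * l q *
          (if (((∏ p ∈ T, p) * q : ℕ) : ℤ) ∣ f.eval (m : ℤ) then (1 : ℝ) else 0) := by
      intro m hm
      have hmN : N < m := (mem_Ioc.1 (mem_filter.1 hm).1).1
      have hmN' : Real.exp Λ + 2 ≤ (m : ℝ) := by
        have : (N : ℝ) ≤ (m : ℝ) := by exact_mod_cast hmN.le
        linarith
      obtain ⟨p1, p2, _⟩ := hP Λ f hAdm hlc m hmN'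
      have hv0 : val f m ≠ 0 := by
        intro h0
        rw [h0] at p2
        rw [← p2] at p1
        norm_num at p1
      rw [div_sum hN1 hω hx2 hWt hv0, tw, sum_mul]
      apply sum_congr rfl
      intro T hT
      rw [mul_sum]
      apply sum_congr rfl
      intro q hq
      by_cases hq0 : l q = 0
      · rw [hq0]
        ring
      · obtain ⟨f1, _, _, _, _⟩ := pair_facts (f := f) hN1 hω hWt hw1 hw2 (hF T hT).1 hq0
        have hTp : ∀ p ∈ T, p.Prime := fun p hp => (mem_filter.1 ((hF T hT).1 hp)).2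
        rw [prod_ind hTp, ← p2]
        have e3 : ((((∏ p ∈ T, p) * q : ℕ) : ℤ) ∣ ((val f m : ℕ) : ℤ)) ↔
            ((∏ p ∈ T, p) ∣ val f m ∧ q ∣ val f m) := by
          rw [Int.natCast_dvd_natCast]
          constructor
          · intro h
            exact ⟨dvd_trans (dvd_mul_right _ _) h, dvd_trans (dvd_mul_left _ _) h⟩
          · rintro ⟨h1, h2⟩
            exact f1.mul_dvd_of_dvd_of_dvd h1 h2
        by_cases a1 : (∏ p ∈ T, p) ∣ val f m
        · by_cases a2 : q ∣ val f m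
          · rw [if_pos a1, if_pos a2, if_pos (e3.2 ⟨a1, a2⟩)]
            ring
          · rw [if_pos a1, if_neg a2, if_neg (fun h => a2 (e3.1 h).2)]
            ring
        · rw [if_neg a1, if_neg (fun h => a1 (e3.1 h).1)]
          ring
    rw [sum_congr rfl e1, sum_comm]
    apply sum_congr rfl
    intro T _
    rw [sum_comm]
    apply sum_congr rfl
    intro q _
    rw [← mul_sum]
    congr 1
    simp only [c]
    rw [sum_ite, sum_const_zero, add_zero, sum_const, nsmul_eq_mul, mul_one]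
  have hR : (N : ℝ) / PM f * MW F g * ms N g l =
      ∑ T ∈ F, ∑ q ∈ D, (-1 : ℝ) ^ T.card * l q *
        ((N : ℝ) / PM f * GG g ((∏ p ∈ T, p) * q)) := by
    rw [MW, ms, mul_assoc, sum_mul_sum, mul_sum]
    apply sum_congr rfl
    intro T hT
    rw [mul_sum]
    apply sum_congr rfl
    intro q hq
    by_cases hq0 : l q = 0
    · rw [hq0]
      ring
    · obtain ⟨_, _, _, f4, f5⟩ := pair_facts (f := f) hN1 hω hWt hw1 hw2 (hF T hT).1 hq0
      rw [GG, GG, f4, prod_union f5]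
      ring
  rw [hL, hR, ← sum_sub_distrib]
  have hterm : ∀ T ∈ F, ∀ q ∈ D, |(-1 : ℝ) ^ T.card * l q * c T q - (-1 : ℝ) ^ T.card * l q *
      ((N : ℝ) / PM f * GG g ((∏ p ∈ T, p) * q))| ≤
      (Real.exp lam * ∏ p ∈ T, g p) * (if l q ≠ 0 then B * (N : ℝ) ^ x * GG g q else 0) := by
    intro T hT q _
    by_cases hq0 : l q = 0
    · rw [hq0, if_neg (by simp)]
      simp
    · obtain ⟨f1, f2, f3, f4, f5⟩ := pair_facts (f := f) hN1 hω hWt hw1 hw2 (hF T hT).1 hq0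
      obtain ⟨a1, a2, a3⟩ := wt_facts hN1 hω hWt hq0
      have hTp : ∀ p ∈ T, p.Prime := fun p hp => (mem_filter.1 ((hF T hT).1 hp)).2
      have hTi : ∀ p ∈ T, 2 * f.natDegree < p ∧ p ≤ w := fun p hp =>
        mem_Ioc.1 (mem_filter.1 ((hF T hT).1 hp)).1
      rw [if_pos hq0, ← mul_sub, abs_mul, abs_mul, abs_pow, abs_neg, abs_one, one_pow, one_mul]
      have hcn := hN f m0 N ((∏ p ∈ T, p) * q) hm0 f2 f3
      rw [f4, prod_union f5] at hcn
      have r1 : ∏ p ∈ T, (rho f p : ℝ) ≤ Real.exp lam * ∏ p ∈ T, g p := by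
        have : ∏ p ∈ T, (rho f p : ℝ) = (∏ p ∈ T, (p : ℝ)) * ∏ p ∈ T, g p := by
          rw [← prod_mul_distrib]
          apply prod_congr rfl
          intro p hp
          exact rho_eq f (hTp p hp).pos (hTi p hp).1
        rw [this]
        have h2 : ∏ p ∈ T, (p : ℝ) ≤ Real.exp lam := by
          have : ∏ p ∈ T, (p : ℝ) = Real.exp (∑ p ∈ T, Real.log p) := by
            rw [Real.exp_sum]
            apply prod_congr rfl
            intro p hp
            rw [Real.exp_log]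
            exact_mod_cast (hTp p hp).pos
          rw [this]
          exact Real.exp_le_exp.2 (hF T hT).2
        exact mul_le_mul_of_nonneg_right h2 (prod_nonneg fun p _ => hg0 p)
      have r2 : ∏ p ∈ q.primeFactors, (rho f p : ℝ) ≤ (N : ℝ) ^ x * GG g q := by
        have : ∏ p ∈ q.primeFactors, (rho f p : ℝ) =
            (∏ p ∈ q.primeFactors, (p : ℝ)) * ∏ p ∈ q.primeFactors, g p := by
          rw [← prod_mul_distrib]
          apply prod_congr rfl
          intro p hp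
          have hpp := Nat.prime_of_mem_primeFactors hp
          exact rho_eq f hpp.pos (f3 p hpp (dvd_mul_of_dvd_right (Nat.dvd_of_mem_primeFactors hp) _))
        rw [this, GG]
        have h2 : ∏ p ∈ q.primeFactors, (p : ℝ) = (q : ℝ) := by
          rw [← Nat.cast_prod, Nat.prod_primeFactors_of_squarefree a1]
        rw [h2]
        exact mul_le_mul_of_nonneg_right a3 (prod_nonneg fun p _ => hg0 p)
      have r10 : 0 ≤ ∏ p ∈ T, (rho f p : ℝ) := prod_nonneg fun p _ => Nat.cast_nonneg _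
      have r20 : 0 ≤ ∏ p ∈ q.primeFactors, (rho f p : ℝ) := prod_nonneg fun p _ => Nat.cast_nonneg _
      calc |l q| * |c T q - (N : ℝ) / PM f * GG g ((∏ p ∈ T, p) * q)| ≤
            B * ((Real.exp lam * ∏ p ∈ T, g p) * ((N : ℝ) ^ x * GG g q)) := by
            apply mul_le_mul (hWt q).1 _ (abs_nonneg _) hB
            refine le_trans hcn ?_
            exact mul_le_mul r1 r2 r20 (le_trans r10 r1)
        _ = (Real.exp lam * ∏ p ∈ T, g p) * (B * (N : ℝ) ^ x * GG g q) := by ring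
  have hS : Qf f w ⊆ (range (Y + 1)).filter Nat.Prime := by
    intro p hp
    rw [Qf, mem_filter, mem_Ioc] at hp
    rw [mem_filter, mem_range]
    exact ⟨by omega, hp.2⟩
  have hT1 : ∑ T ∈ F, ∏ p ∈ T, g p ≤ Real.exp E :=
    fam_le g hg0 _ F (fun T hT => (hF T hT).1.trans hS) E hE
  have hq1 : ∑ q ∈ D.filter (fun q => l q ≠ 0), GG g q ≤ Real.exp E := by
    have hinj : Set.InjOn (fun q : ℕ => q.primeFactors)
        ((D.filter (fun q => l q ≠ 0) : Finset ℕ) : Set ℕ) := by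
      intro a ha b hb hab
      rw [mem_coe, mem_filter] at ha hb
      have sa := (wt_facts hN1 hω hWt ha.2).1
      have sb := (wt_facts hN1 hω hWt hb.2).1
      have hab' : a.primeFactors = b.primeFactors := hab
      rw [← Nat.prod_primeFactors_of_squarefree sa, ← Nat.prod_primeFactors_of_squarefree sb, hab']
    have e1 : ∑ q ∈ D.filter (fun q => l q ≠ 0), GG g q =
        ∑ T ∈ (D.filter (fun q => l q ≠ 0)).image (fun q : ℕ => q.primeFactors), ∏ p ∈ T, g p := by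
      rw [sum_image hinj]
      rfl
    rw [e1]
    refine fam_le g hg0 _ _ ?_ E hE
    intro T hT
    obtain ⟨q, hq, rfl⟩ := mem_image.1 hT
    intro p hp
    obtain ⟨s1, s2, s3⟩ := wt_facts hN1 hω hWt (mem_filter.1 hq).2
    rw [mem_filter, mem_range]
    refine ⟨?_, Nat.prime_of_mem_primeFactors hp⟩
    have h1 : p ≤ q := Nat.le_of_mem_primeFactors hp
    have h2 : (q : ℝ) ≤ (Y : ℝ) := le_trans s3 hNY
    have h3 : q ≤ Y := by exact_mod_cast h2
    omega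
  calc |∑ T ∈ F, (∑ q ∈ D, (-1 : ℝ) ^ T.card * l q * c T q - ∑ q ∈ D, (-1 : ℝ) ^ T.card * l q *
      ((N : ℝ) / PM f * GG g ((∏ p ∈ T, p) * q)))|
      ≤ ∑ T ∈ F, ∑ q ∈ D, (Real.exp lam * ∏ p ∈ T, g p) *
        (if l q ≠ 0 then B * (N : ℝ) ^ x * GG g q else 0) := by
        refine le_trans (abs_sum_le_sum_abs _ _) ?_
        apply sum_le_sum
        intro T hT
        rw [← sum_sub_distrib]
        refine le_trans (abs_sum_le_sum_abs _ _) ?_
        apply sum_le_sum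
        intro q hq
        exact hterm T hT q hq
    _ = (Real.exp lam * ∑ T ∈ F, ∏ p ∈ T, g p) *
        (B * (N : ℝ) ^ x * ∑ q ∈ D.filter (fun q => l q ≠ 0), GG g q) := by
        rw [mul_sum, mul_sum, sum_mul]
        apply sum_congr rfl
        intro T _
        rw [← mul_sum, sum_filter]
    _ ≤ (Real.exp lam * Real.exp E) * (B * (N : ℝ) ^ x * Real.exp E) := by
        have hx : 0 ≤ (N : ℝ) ^ x := Real.rpow_nonneg (by linarith) _
        have h0 : 0 ≤ ∑ q ∈ D.filter (fun q => l q ≠ 0), GG g q :=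
          sum_nonneg fun q _ => prod_nonneg fun p _ => hg0 p
        gcongr
    _ = B * Real.exp lam * (N : ℝ) ^ x * Real.exp (2 * E) := by
        rw [two_mul, Real.exp_add]
        ring

end Pool.Agent.Helper60.UP
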