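import Pool.Agent.Helper9.UP.StN

set_option autoImplicit false

namespace Pool.Agent.Helper60.UP

open Pool.Agent.Helper9.UP
open Finset Polynomial NumberField Module

theorem hGF : StGF := by
  intro Λ f hf
  have hd : f.natDegree ≠ 0 := by have := hf.deg; omega
  have hprim : f.IsPrimitive := hf.irr.isPrimitive hd
  have hirr : Irreducible (f.map (Int.castRingHom ℚ)) :=
    (IsPrimitive.Int.irreducible_iff_irreducible_map_cast hprim).1 hf.irr
  have : Fact (Irreducible (f.map (Int.castRingHom ℚ))) := ⟨hirr⟩
  have hdeg : (f.map (Int.castRingHom ℚ)).natDegree = f.natDegree :=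
    natDegree_map_eq_of_injective (RingHom.injective_int _) f
  have hfin : FiniteDimensional ℚ (AdjoinRoot (f.map (Int.castRingHom ℚ))) :=
    (AdjoinRoot.powerBasis hirr.ne_zero).finite
  have hcz : CharZero (AdjoinRoot (f.map (Int.castRingHom ℚ))) :=
    charZero_of_injective_algebraMap (algebraMap ℚ _).injective
  refine ⟨AdjoinRoot (f.map (Int.castRingHom ℚ)), inferInstance, ?_, AdjoinRoot.root _, ?_, ?_⟩
  · exact { to_charZero := hcz, to_finiteDimensional := by convert hfin }
  · have h := AdjoinRoot.eval₂_root (f.map (Int.castRingHom ℚ))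
    rw [eval₂_map] at h
    have e : (AdjoinRoot.of (f.map (Int.castRingHom ℚ))).comp (Int.castRingHom ℚ)
        = algebraMap ℤ (AdjoinRoot (f.map (Int.castRingHom ℚ))) := RingHom.ext_int _ _
    rw [e] at h
    exact h
  · have h := (AdjoinRoot.powerBasis hirr.ne_zero).finrank
    rw [AdjoinRoot.powerBasis_dim, hdeg] at h
    unfold dg
    convert h

end Pool.Agent.Helper60.UP
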